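import Pool.Agent.Helper88.SQS.Defs

/-!
# MP_822206_co: lower bound, exact value from a colouring, transport along a bijection
-/

set_option autoImplicit false
set_option linter.unusedSectionVars false

open Finset

namespace Pool.Agent.Helper31.SQS

open Pool.Agent.Helper88.SQS

variable {V : Type*} [DecidableEq V]

theorem mem_derived {B : Finset (Finset V)} {x : V} {t : Finset V} :
    t ∈ derived B x ↔ ∃ b ∈ B, x ∈ b ∧ b.erase x = t := by
  simp only [derived, mem_image, mem_filter, and_assoc]

theorem derived_card {B : Finset (Finset V)} (hB : IsSQS B) {x : V} {t : Finset V}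
    (ht : t ∈ derived B x) : t.card = 3 ∧ x ∉ t := by
  obtain ⟨b, hb, hx, rfl⟩ := mem_derived.1 ht
  refine ⟨?_, Finset.notMem_erase x b⟩
  rw [card_erase_of_mem hx, hB.1 b hb]

theorem derived_exists {B : Finset (Finset V)} (hB : IsSQS B) {x y z : V} (hyx : y ≠ x)
    (hzx : z ≠ x) (hyz : y ≠ z) : ∃ t ∈ derived B x, y ∈ t ∧ z ∈ t := by
  have hc : ({x, y, z} : Finset V).card = 3 := by
    rw [card_eq_three]
    exact ⟨x, y, z, hyx.symm, hzx.symm, hyz, rfl⟩
  obtain ⟨b, ⟨hb, hsub⟩, -⟩ := hB.2 _ hc
  have h1 : x ∈ b := hsub (by simp)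
  have h2 : y ∈ b := hsub (by simp)
  have h3 : z ∈ b := hsub (by simp)
  exact ⟨b.erase x, mem_derived.2 ⟨b, hb, h1, rfl⟩, mem_erase.2 ⟨hyx, h2⟩,
    mem_erase.2 ⟨hzx, h3⟩⟩

theorem derived_unique {B : Finset (Finset V)} (hB : IsSQS B) {x y z : V} (hyz : y ≠ z)
    {t t' : Finset V} (ht : t ∈ derived B x) (ht' : t' ∈ derived B x)
    (hy : y ∈ t) (hz : z ∈ t) (hy' : y ∈ t') (hz' : z ∈ t') : t = t' := by
  obtain ⟨b, hb, hx, rfl⟩ := mem_derived.1 ht
  obtain ⟨b', hb', hx', rfl⟩ := mem_derived.1 ht'
  have hyx : y ≠ x := (mem_erase.1 hy).1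
  have hzx : z ≠ x := (mem_erase.1 hz).1
  have hc : ({x, y, z} : Finset V).card = 3 := by
    rw [card_eq_three]
    exact ⟨x, y, z, hyx.symm, hzx.symm, hyz, rfl⟩
  obtain ⟨b0, -, huniq⟩ := hB.2 _ hc
  have hs : ({x, y, z} : Finset V) ⊆ b := by
    intro a ha
    simp only [mem_insert, mem_singleton] at ha
    rcases ha with rfl | rfl | rfl
    · exact hx
    · exact (mem_erase.1 hy).2
    · exact (mem_erase.1 hz).2
  have hs' : ({x, y, z} : Finset V) ⊆ b' := by
    intro a ha
    simp only [mem_insert, mem_singleton] at ha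
    rcases ha with rfl | rfl | rfl
    · exact hx'
    · exact (mem_erase.1 hy').2
    · exact (mem_erase.1 hz').2
  rw [huniq b ⟨hb, hs⟩, huniq b' ⟨hb', hs'⟩]

/-- the number of blocks of the derived system through a point -/
theorem through_card [Fintype V] {B : Finset (Finset V)} (hB : IsSQS B) {x y : V}
    (hyx : y ≠ x) : 2 * ((derived B x).filter fun t => y ∈ t).card = Fintype.card V - 2 := by
  set Ty := (derived B x).filter fun t => y ∈ t with hTy
  have hU : ((univ : Finset V).erase x).erase y = Ty.biUnion (fun t => t.erase y) := by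
    ext z
    simp only [mem_erase, mem_univ, and_true, mem_biUnion, hTy, mem_filter]
    constructor
    · rintro ⟨hzy, hzx⟩
      obtain ⟨t, ht, h1, h2⟩ := derived_exists hB hyx hzx (Ne.symm hzy)
      exact ⟨t, ⟨ht, h1⟩, hzy, h2⟩
    · rintro ⟨t, ⟨ht, h1⟩, hzy, h2⟩
      refine ⟨hzy, ?_⟩
      rintro rfl
      exact (derived_card hB ht).2 h2
  have hdis : ∀ t ∈ Ty, ∀ t' ∈ Ty, t ≠ t' → Disjoint (t.erase y) (t'.erase y) := by
    intro t ht t' ht' hne
    rw [hTy, mem_filter] at ht ht'
    rw [Finset.disjoint_left]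
    intro z hz hz'
    apply hne
    exact derived_unique hB (Ne.symm (mem_erase.1 hz).1) ht.1 ht'.1 ht.2 (mem_erase.1 hz).2 ht'.2
      (mem_erase.1 hz').2
  have hcard := congrArg Finset.card hU
  rw [card_biUnion hdis] at hcard
  have h2 : ∀ t ∈ Ty, (t.erase y).card = 2 := by
    intro t ht
    rw [hTy, mem_filter] at ht
    rw [card_erase_of_mem ht.2, (derived_card hB ht.1).1]
  rw [sum_congr rfl h2, sum_const, smul_eq_mul, card_erase_of_mem, card_erase_of_mem (mem_univ x),
    card_univ] at hcard
  · omega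
  · exact mem_erase.2 ⟨hyx, mem_univ y⟩

/-- the number of blocks of one colour -/
theorem colour_card [Fintype V] {B : Finset (Finset V)} (hB : IsSQS B)
    (hV : Fintype.card V % 6 = 2) {x : V} (S : Finset (Finset V)) (hS : S ⊆ derived B x)
    (hdis : ∀ t ∈ S, ∀ t' ∈ S, t ≠ t' → Disjoint t t') : 3 * S.card ≤ Fintype.card V - 2 := by
  have h1 : (S.biUnion fun t => t).card = 3 * S.card := by
    rw [card_biUnion hdis]
    have h3 : ∀ t ∈ S, t.card = 3 := fun t ht => (derived_card hB (hS ht)).1
    rw [sum_congr rfl h3, sum_const, smul_eq_mul, mul_comm]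
  have h2 : (S.biUnion fun t => t) ⊆ (univ : Finset V).erase x := by
    intro z hz
    rw [mem_biUnion] at hz
    obtain ⟨t, ht, hz⟩ := hz
    rw [mem_erase]
    refine ⟨?_, mem_univ z⟩
    rintro rfl
    exact (derived_card hB (hS ht)).2 hz
  have h3 := card_le_card h2
  rw [h1, card_erase_of_mem (mem_univ x), card_univ] at h3
  omega

theorem lb : G_LB := by
  intro V _ _ B hB hV h8 x k ⟨c, hc⟩
  set n := Fintype.card V with hn
  have hdouble : 3 * (derived B x).card = ∑ y ∈ (univ : Finset V).erase x,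
      ((derived B x).filter fun t => y ∈ t).card := by
    have h1 : ∀ y, ((derived B x).filter fun t => y ∈ t).card =
        ∑ t ∈ derived B x, if y ∈ t then 1 else 0 := by
      intro y
      rw [card_filter]
    simp_rw [h1]
    rw [sum_comm]
    have h2 : ∀ t ∈ derived B x, (∑ y ∈ (univ : Finset V).erase x, if y ∈ t then 1 else 0) = 3 := by
      intro t ht
      obtain ⟨h3, h4⟩ := derived_card hB ht
      rw [← card_filter, ← h3]
      congr 1
      ext z
      simp only [mem_filter, mem_erase, mem_univ, and_true, and_iff_right_iff_imp]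
      rintro hz rfl
      exact h4 hz
    rw [sum_congr rfl h2, sum_const, smul_eq_mul, mul_comm]
  have h4 : 2 * (3 * (derived B x).card) = (n - 1) * (n - 2) := by
    rw [hdouble, mul_sum]
    rw [sum_congr rfl (fun y hy => through_card hB (mem_erase.1 hy).1), sum_const, smul_eq_mul,
      card_erase_of_mem (mem_univ x), card_univ]
  have h5 : (derived B x).card = ∑ i : Fin k, ((derived B x).filter fun t => c t = i).card := by
    rw [card_eq_sum_card_fiberwise (f := c) (t := (univ : Finset (Fin k)))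
      (fun t _ => mem_coe.2 (mem_univ _))]
  have h6 : ∀ i : Fin k, 3 * ((derived B x).filter fun t => c t = i).card ≤ n - 2 := by
    intro i
    apply colour_card hB hV _ (filter_subset _ _)
    intro t ht t' ht' hne
    rw [mem_filter] at ht ht'
    exact hc t ht.1 t' ht'.1 hne (by rw [ht.2, ht'.2])
  have h7 : 3 * (derived B x).card ≤ k * (n - 2) := by
    rw [h5, mul_sum]
    calc ∑ i : Fin k, 3 * ((derived B x).filter fun t => c t = i).card
        ≤ ∑ _i : Fin k, (n - 2) := sum_le_sum fun i _ => h6 i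
      _ = k * (n - 2) := by rw [sum_const, card_univ, Fintype.card_fin, smul_eq_mul]
  have h8' : (n - 1) * (n - 2) ≤ (2 * k) * (n - 2) := by
    rw [← h4, mul_assoc]
    exact Nat.mul_le_mul_left 2 h7
  have h9 : n - 1 ≤ 2 * k := Nat.le_of_mul_le_mul_right h8' (by omega)
  omega

/-- the exact value -/
theorem chi_eq (V : Type) [Fintype V] [DecidableEq V] (B : Finset (Finset V)) (hB : IsSQS B)
    (hV : Fintype.card V % 6 = 2) (h8 : 8 ≤ Fintype.card V) (x : V)
    (hc : Colorable (derived B x) (Fintype.card V / 2)) :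
    chromaticNumber (derived B x) = Fintype.card V / 2 := by
  apply le_antisymm
  · exact Nat.sInf_le hc
  · exact le_csInf ⟨_, hc⟩ fun k hk => lb V B hB hV h8 x k hk

section transport

variable {W : Type*} [DecidableEq W]

/-- transport of a set system -/
def tr (e : V ≃ W) (B : Finset (Finset V)) : Finset (Finset W) :=
  B.image (fun b => b.map e.toEmbedding)

theorem mem_tr {e : V ≃ W} {B : Finset (Finset V)} {b : Finset W} :
    b ∈ tr e B ↔ b.map e.symm.toEmbedding ∈ B := by
  simp only [tr, mem_image]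
  constructor
  · rintro ⟨a, ha, rfl⟩
    have : (a.map e.toEmbedding).map e.symm.toEmbedding = a := by
      ext z; simp
    rwa [this]
  · intro h
    refine ⟨_, h, ?_⟩
    ext z; simp

theorem isSQS_tr (e : V ≃ W) {B : Finset (Finset V)} (hB : IsSQS B) : IsSQS (tr e B) := by
  refine ⟨?_, ?_⟩
  · intro b hb
    rw [mem_tr] at hb
    have := hB.1 _ hb
    rwa [card_map] at this
  · intro t ht
    obtain ⟨b, ⟨hb, hsub⟩, huniq⟩ := hB.2 (t.map e.symm.toEmbedding) (by rw [card_map]; exact ht)
    refine ⟨b.map e.toEmbedding, ⟨?_, ?_⟩, ?_⟩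
    · rw [mem_tr]
      have : (b.map e.toEmbedding).map e.symm.toEmbedding = b := by ext z; simp
      rwa [this]
    · intro z hz
      have := hsub (mem_map_of_mem e.symm.toEmbedding hz)
      rw [mem_map_equiv]
      simpa using this
    · rintro b' ⟨hb', hsub'⟩
      rw [mem_tr] at hb'
      have := huniq (b'.map e.symm.toEmbedding) ⟨hb', map_subset_map.2 hsub'⟩
      rw [← this]
      ext z; simp

theorem derived_tr (e : V ≃ W) (B : Finset (Finset V)) (x : V) :
    derived (tr e B) (e x) = tr e (derived B x) := by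
  ext t
  rw [mem_derived, mem_tr, mem_derived]
  constructor
  · rintro ⟨b, hb, hx, rfl⟩
    rw [mem_tr] at hb
    refine ⟨_, hb, ?_, ?_⟩
    · rw [mem_map_equiv]; simpa using hx
    · ext z
      simp only [mem_erase, mem_map_equiv, Equiv.symm_symm]
      constructor
      · rintro ⟨h1, h2⟩
        exact ⟨fun h => h1 (e.injective h), h2⟩
      · rintro ⟨h1, h2⟩
        exact ⟨fun h => h1 (by rw [h]), h2⟩
  · rintro ⟨b, hb, hx, hbt⟩
    refine ⟨b.map e.toEmbedding, ?_, ?_, ?_⟩
    · rw [mem_tr]
      have : (b.map e.toEmbedding).map e.symm.toEmbedding = b := by ext z; simp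
      rwa [this]
    · rw [mem_map_equiv]; simpa using hx
    · have h1 : t = (b.erase x).map e.toEmbedding := by
        rw [hbt]; ext z; simp
      rw [h1]
      ext z
      simp only [mem_erase, mem_map_equiv, ne_eq, Equiv.symm_apply_eq]

theorem colorable_tr (e : V ≃ W) {T : Finset (Finset V)} {k : ℕ} (h : Colorable T k) :
    Colorable (tr e T) k := by
  obtain ⟨c, hc⟩ := h
  refine ⟨fun b => c (b.map e.symm.toEmbedding), ?_⟩
  intro b hb b' hb' hne hcc
  rw [mem_tr] at hb hb'
  have := hc _ hb _ hb' (fun h => hne (map_injective e.symm.toEmbedding h)) hcc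
  rwa [disjoint_map] at this

end transport

end Pool.Agent.Helper31.SQS
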