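import Pool.Agent.Helper88.SQS.Colour
import Pool.Agent.Helper31.SQS.LB

/-!
# MP_822206_co: the quadruple systems on the projective line
-/

set_option autoImplicit false
set_option linter.unusedSectionVars false

open Finset

namespace Pool.Agent.Helper31.SQS

open Pool.Agent.Helper88.SQS

variable {K F : Type} [Field K] [Field F] [Algebra K F]

/-- an orientation of all affine lines -/
def Orient (K : Type) {F : Type} [Field K] [Field F] [Algebra K F] (O : F → F → Prop) : Prop :=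
  (∀ (p w : F) (m l : K), w ≠ 0 → l ≠ 0 → O p w → O (p + m • w) ((l ^ 2) • w)) ∧
    ∀ p w : F, w ≠ 0 → (O p w ↔ ¬ O p (-w))

/-- the oriented triple system -/
noncomputable def TO [Fintype F] [DecidableEq F] (θ : K) (O : F → F → Prop) :
    Finset (Finset F) :=
  (Set.toFinite {t : Finset F | ∃ p w : F, w ≠ 0 ∧ O p w ∧
    t = {p + w, p + θ • w, p + (θ ^ 2) • w}}).toFinset

theorem mem_TO [Fintype F] [DecidableEq F] {θ : K} {O : F → F → Prop} {t : Finset F} :
    t ∈ TO θ O ↔ ∃ p w : F, w ≠ 0 ∧ O p w ∧ t = {p + w, p + θ • w, p + (θ ^ 2) • w} := by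
  unfold TO
  rw [Set.Finite.mem_toFinset]
  rfl

theorem SQ_mul {K : Type*} [Field K] {a b : K} (ha : SQ a) (hb : SQ b) : SQ (a * b) := by
  obtain ⟨r, hr, rfl⟩ := ha
  obtain ⟨s, hs, rfl⟩ := hb
  exact ⟨r * s, mul_ne_zero hr hs, by ring⟩

theorem SQ_inv {K : Type*} [Field K] {a : K} (ha : SQ a) : SQ a⁻¹ := by
  obtain ⟨r, hr, rfl⟩ := ha
  exact ⟨r⁻¹, inv_ne_zero hr, by rw [inv_pow]⟩

/-- matrices over K -/
abbrev mp (K F : Type) [Field K] [Field F] [Algebra K F] (k : Matrix (Fin 2) (Fin 2) K) :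
    Matrix (Fin 2) (Fin 2) F := k.map (algebraMap K F)

theorem mp_mul (k k' : Matrix (Fin 2) (Fin 2) K) : mp K F (k * k') = mp K F k * mp K F k' :=
  Matrix.map_mul

/-- the group generated by the scalars and the matrices over K with square determinant -/
def G1 (K F : Type) [Field K] [Field F] [Algebra K F] : Subgroup (GL (Fin 2) F) where
  carrier := {g | ∃ (c : F) (k : Matrix (Fin 2) (Fin 2) K), c ≠ 0 ∧ SQ k.det ∧
    (g : Matrix (Fin 2) (Fin 2) F) = c • mp K F k}
  mul_mem' := by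
    rintro g g' ⟨c, k, hc, hk, h⟩ ⟨c', k', hc', hk', h'⟩
    refine ⟨c * c', k * k', mul_ne_zero hc hc', by rw [Matrix.det_mul]; exact SQ_mul hk hk', ?_⟩
    rw [Units.val_mul, h, h', mp_mul, Matrix.smul_mul, Matrix.mul_smul, smul_smul]
  one_mem' := ⟨1, 1, one_ne_zero, by rw [Matrix.det_one]; exact ⟨1, one_ne_zero, by simp⟩, by
    simp [mp]⟩
  inv_mem' := by
    rintro g ⟨c, k, hc, hk, h⟩
    refine ⟨c⁻¹, k⁻¹, inv_ne_zero hc, ?_, ?_⟩
    · rw [Matrix.det_nonsing_inv, Ring.inverse_eq_inv']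
      exact SQ_inv hk
    · have hu : IsUnit k.det := isUnit_iff_ne_zero.2 hk.ne
      have h1 : (g : Matrix (Fin 2) (Fin 2) F) * (c⁻¹ • mp K F k⁻¹) = 1 := by
        rw [h, Matrix.smul_mul, Matrix.mul_smul, smul_smul, mul_inv_cancel₀ hc, one_smul,
          ← mp_mul, Matrix.mul_nonsing_inv _ hu]
        simp [mp]
      have h2 : (g⁻¹ : GL (Fin 2) F) * ((g : Matrix (Fin 2) (Fin 2) F) * (c⁻¹ • mp K F k⁻¹)) =
          (g⁻¹ : GL (Fin 2) F) * (1 : Matrix (Fin 2) (Fin 2) F) := by rw [h1]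
      rw [← Matrix.mul_assoc, ← Units.val_mul, inv_mul_cancel, Units.val_one, Matrix.one_mul,
        Matrix.mul_one] at h2
      exact h2.symm

/-- affine matrices -/
def aff (w p : F) (hw : w ≠ 0) : GL (Fin 2) F :=
  Matrix.GeneralLinearGroup.mkOfDetNeZero !![w, p; 0, 1] (by simpa using hw)

theorem aff_val (w p : F) (hw : w ≠ 0) :
    (aff w p hw : Matrix (Fin 2) (Fin 2) F) = !![w, p; 0, 1] := rfl

theorem aff_mul (w p w' p' : F) (hw : w ≠ 0) (hw' : w' ≠ 0) :
    aff w p hw * aff w' p' hw' = aff (w * w') (w * p' + p) (mul_ne_zero hw hw') := by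
  apply Units.ext
  rw [Units.val_mul, aff_val, aff_val, aff_val, Matrix.mul_fin_two]
  simp

/-- the reflection -/
def k0 (F : Type) [Field F] : GL (Fin 2) F := aff (-1) 0 (neg_ne_zero.2 one_ne_zero)

theorem k0_sq : k0 F * k0 F = 1 := by
  apply Units.ext
  rw [k0, aff_mul, aff_val, Units.val_one, Matrix.one_fin_two]
  simp

theorem k0_notMem (hK : Fld K) : k0 F ∉ G1 K F := by
  rintro ⟨c, k, hc, hk, h⟩
  have e : ∀ i j, (k0 F : Matrix (Fin 2) (Fin 2) F) i j = c * algebraMap K F (k i j) := by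
    intro i j
    rw [h]
    simp [mp]
  have h00 := e 0 0
  have h01 := e 0 1
  have h11 := e 1 1
  rw [k0, aff_val] at h00 h01 h11
  simp only [Matrix.of_apply, Matrix.cons_val', Matrix.cons_val_zero, Matrix.cons_val_one,
    Matrix.cons_val_fin_one] at h00 h01 h11
  have k01 : k 0 1 = 0 := by
    have := (mul_eq_zero.1 h01.symm).resolve_left hc
    exact (map_eq_zero (algebraMap K F)).1 this
  have hsum : k 0 0 + k 1 1 = 0 := by
    have : c * algebraMap K F (k 0 0 + k 1 1) = 0 := by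
      rw [map_add, mul_add, ← h00, ← h11]; ring
    exact (map_eq_zero (algebraMap K F)).1 ((mul_eq_zero.1 this).resolve_left hc)
  rw [Matrix.det_fin_two, k01, zero_mul, sub_zero] at hk
  have h2 : k 0 0 * k 1 1 = -(k 1 1 ^ 2) := by linear_combination (k 1 1) * hsum
  rw [h2] at hk
  have hne : k 1 1 ≠ 0 := by
    intro h0
    rw [h0] at hk
    have := hk.ne
    simp at this
  exact hK.nand (k 1 1 ^ 2) ⟨k 1 1, hne, rfl⟩ hk

theorem k0_conj {g : GL (Fin 2) F} (hg : g ∈ G1 K F) : k0 F * g * k0 F ∈ G1 K F := by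
  obtain ⟨c, k, hc, hk, h⟩ := hg
  refine ⟨c, !![-1, 0; 0, 1] * k * !![-1, 0; 0, 1], hc, ?_, ?_⟩
  · rw [Matrix.det_mul, Matrix.det_mul, Matrix.det_fin_two_of]
    have : ((-1 : K) * 1 - 0 * 0) * k.det * ((-1 : K) * 1 - 0 * 0) = k.det := by ring
    rw [this]
    exact hk
  · rw [Units.val_mul, Units.val_mul, h, k0, aff_val, mp_mul, mp_mul]
    have e : mp K F (!![-1, 0; 0, 1] : Matrix (Fin 2) (Fin 2) K) = !![-1, 0; 0, 1] := by
      ext i j
      fin_cases i <;> fin_cases j <;> simp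
    rw [e, Matrix.mul_smul, Matrix.smul_mul]

/-- the choice of one class in every pair -/
theorem exists_X (hK : Fld K) : ∃ X : GL (Fin 2) F → Prop,
    (∀ g k, k ∈ G1 K F → X g → X (g * k)) ∧ ∀ g, X g ↔ ¬ X (g * k0 F) := by
  let q : GL (Fin 2) F → GL (Fin 2) F ⧸ G1 K F := fun g => QuotientGroup.mk g
  have hq : ∀ g k, k ∈ G1 K F → q (g * k) = q g := by
    intro g k hk
    show (QuotientGroup.mk (g * k) : GL (Fin 2) F ⧸ G1 K F) = QuotientGroup.mk g
    rw [QuotientGroup.eq]
    have : (g * k)⁻¹ * g = k⁻¹ := by group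
    rw [this]
    exact (G1 K F).inv_mem hk
  have hne : ∀ g, q g ≠ q (g * k0 F) := by
    intro g h
    have h' : (QuotientGroup.mk g : GL (Fin 2) F ⧸ G1 K F) = QuotientGroup.mk (g * k0 F) := h
    rw [QuotientGroup.eq] at h'
    have : g⁻¹ * (g * k0 F) = k0 F := by group
    rw [this] at h'
    exact k0_notMem hK h'
  refine ⟨fun g => WellOrderingRel (q g) (q (g * k0 F)), ?_, ?_⟩
  · intro g k hk h
    have e1 := hq g k hk
    have e2 : q (g * k * k0 F) = q (g * k0 F) := by
      have : g * k * k0 F = g * k0 F * (k0 F * k * k0 F) := by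
        have h2 := k0_sq (F := F)
        calc g * k * k0 F = g * (k0 F * k0 F) * k * k0 F := by rw [h2, mul_one]
          _ = g * k0 F * (k0 F * k * k0 F) := by group
      rw [this, hq _ _ (k0_conj hk)]
    show WellOrderingRel (q (g * k)) (q (g * k * k0 F))
    rw [e1, e2]
    exact h
  · intro g
    have e1 : g * k0 F * k0 F = g := by rw [mul_assoc, k0_sq, mul_one]
    show WellOrderingRel (q g) (q (g * k0 F)) ↔
      ¬ WellOrderingRel (q (g * k0 F)) (q (g * k0 F * k0 F))
    rw [e1]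
    constructor
    · intro h h'
      exact asymm h h'
    · intro h
      rcases trichotomous_of WellOrderingRel (q g) (q (g * k0 F)) with h1 | h1 | h1
      · exact h1
      · exact absurd h1 (hne g)
      · exact absurd h1 h

section line

open OnePoint

variable [DecidableEq F] [DecidableEq (OnePoint F)]

theorem aff_smul (w p : F) (hw : w ≠ 0) (z : F) :
    aff w p hw • (z : OnePoint F) = ((w * z + p : F) : OnePoint F) := by
  rw [OnePoint.smul_some_eq_ite]
  simp [aff]

theorem aff_smul_infty (w p : F) (hw : w ≠ 0) :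
    aff w p hw • (∞ : OnePoint F) = ∞ := by
  rw [OnePoint.smul_infty_eq_self_iff]
  simp [aff]

/-- the base block -/
def beta (t : F) : Finset (OnePoint F) := {∞, ((1 : F) : OnePoint F), (t : OnePoint F),
  ((t ^ 2 : F) : OnePoint F)}

theorem mem_beta {t : F} {e : OnePoint F} : e ∈ beta t ↔
    e = ∞ ∨ e = ((1 : F) : OnePoint F) ∨ e = (t : OnePoint F) ∨ e = ((t ^ 2 : F) : OnePoint F) := by
  simp [beta]

/-- block of a matrix -/
def blk (t : F) (g : GL (Fin 2) F) : Finset (OnePoint F) := (beta t).image fun z => g • z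

theorem mem_blk {t : F} {g : GL (Fin 2) F} {x : OnePoint F} :
    x ∈ blk t g ↔ ∃ e ∈ beta t, g • e = x := by
  simp [blk]

theorem blk_mul {t : F} {g k : GL (Fin 2) F} (hk : blk t k = beta t) :
    blk t (g * k) = blk t g := by
  have : blk t (g * k) = (blk t k).image fun z => g • z := by
    rw [blk, blk, image_image]
    congr 1
    ext z
    rw [mul_smul]
    rfl
  rw [this, hk, blk]

/-- the involution exchanging infinity and 1 -/
def k1 (h3 : (3 : F) ≠ 0) : GL (Fin 2) F :=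
  Matrix.GeneralLinearGroup.mkOfDetNeZero !![1, 2; 1, -1] (by
    rw [Matrix.det_fin_two_of]
    intro h
    apply h3
    linear_combination -h)

theorem k1_infty (h3 : (3 : F) ≠ 0) : k1 h3 • (∞ : OnePoint F) = ((1 : F) : OnePoint F) := by
  rw [OnePoint.smul_infty_eq_ite]
  simp [k1]

theorem k1_some (h3 : (3 : F) ≠ 0) (z z' : F) (hz : z - 1 ≠ 0) (h : z + 2 = z' * (z - 1)) :
    k1 h3 • (z : OnePoint F) = (z' : OnePoint F) := by
  rw [OnePoint.smul_some_eq_ite]
  have e1 : (k1 h3) 1 0 * z + (k1 h3) 1 1 = z - 1 := by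
    simp [k1]; ring
  have e2 : (k1 h3) 0 0 * z + (k1 h3) 0 1 = z + 2 := by
    simp [k1]
  rw [e1, e2, if_neg hz, h]
  congr 1
  field_simp

theorem k1_one (h3 : (3 : F) ≠ 0) : k1 h3 • ((1 : F) : OnePoint F) = ∞ := by
  rw [OnePoint.smul_some_eq_ite, if_pos]
  simp [k1]

theorem k1_beta (h3 : (3 : F) ≠ 0) {t : F} (ht : t ^ 2 + t + 1 = 0) : blk t (k1 h3) = beta t := by
  have ht1 : t - 1 ≠ 0 := by
    intro h
    apply h3
    have : t = 1 := sub_eq_zero.1 h
    rw [this] at ht
    linear_combination ht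
  have ht2 : t ^ 2 - 1 ≠ 0 := by
    intro h
    apply h3
    have : t = -2 := by linear_combination ht - h
    rw [this] at ht
    linear_combination ht
  have e1 := k1_some h3 t (t ^ 2) ht1 (by linear_combination (-(t - 2)) * ht)
  have e2 := k1_some h3 (t ^ 2) t ht2 (by linear_combination (2 - t) * ht)
  ext x
  rw [mem_blk, mem_beta]
  constructor
  · rintro ⟨e, he, rfl⟩
    rw [mem_beta] at he
    rcases he with rfl | rfl | rfl | rfl
    · rw [k1_infty]; tauto
    · rw [k1_one]; tauto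
    · rw [e1]; tauto
    · rw [e2]; tauto
  · intro hx
    rcases hx with rfl | rfl | rfl | rfl
    · exact ⟨_, mem_beta.2 (Or.inr (Or.inl rfl)), k1_one h3⟩
    · exact ⟨_, mem_beta.2 (Or.inl rfl), k1_infty h3⟩
    · exact ⟨_, mem_beta.2 (Or.inr (Or.inr (Or.inr rfl))), e2⟩
    · exact ⟨_, mem_beta.2 (Or.inr (Or.inr (Or.inl rfl))), e1⟩

theorem kR_beta {t : F} (ht : t ^ 2 + t + 1 = 0) (ht0 : t ≠ 0) : blk t (aff t 0 ht0) = beta t := by
  have h3 : t * t ^ 2 = 1 := by linear_combination (t - 1) * ht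
  ext x
  rw [mem_blk, mem_beta]
  constructor
  · rintro ⟨e, he, rfl⟩
    rw [mem_beta] at he
    rcases he with rfl | rfl | rfl | rfl
    · rw [aff_smul_infty]; tauto
    · rw [aff_smul, mul_one, add_zero]; tauto
    · rw [aff_smul, add_zero, ← sq]; tauto
    · rw [aff_smul, add_zero, h3]; tauto
  · intro hx
    rcases hx with rfl | rfl | rfl | rfl
    · exact ⟨_, mem_beta.2 (Or.inl rfl), aff_smul_infty _ _ _⟩
    · exact ⟨_, mem_beta.2 (Or.inr (Or.inr (Or.inr rfl))), by rw [aff_smul, add_zero, h3]⟩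
    · exact ⟨_, mem_beta.2 (Or.inr (Or.inl rfl)), by rw [aff_smul, mul_one, add_zero]⟩
    · exact ⟨_, mem_beta.2 (Or.inr (Or.inr (Or.inl rfl))), by rw [aff_smul, add_zero, ← sq]⟩

theorem aff_mem (w p : K) (hw : SQ w) (hw' : algebraMap K F w ≠ 0) :
    aff (algebraMap K F w) (algebraMap K F p) hw' ∈ G1 K F := by
  refine ⟨1, !![w, p; 0, 1], one_ne_zero, ?_, ?_⟩
  · rw [Matrix.det_fin_two_of]
    simpa using hw
  · rw [aff_val, one_smul]
    ext i j
    fin_cases i <;> fin_cases j <;> simp [mp]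

theorem stab {θ : K} (hθ : θ ^ 2 + θ + 1 = 0) (h3 : (3 : K) ≠ 0) {e : OnePoint F}
    (he : e ∈ beta (algebraMap K F θ)) : ∃ k ∈ G1 K F, k • (∞ : OnePoint F) = e ∧
      blk (algebraMap K F θ) k = beta (algebraMap K F θ) := by
  have h3' : (3 : F) ≠ 0 := by
    intro h
    apply h3
    have : algebraMap K F 3 = 0 := by rw [map_ofNat]; exact h
    exact (map_eq_zero (algebraMap K F)).1 this
  set t := algebraMap K F θ with ht
  have htt : t ^ 2 + t + 1 = 0 := by
    have := congrArg (algebraMap K F) hθ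
    simpa using this
  have hθ0 : θ ≠ 0 := by
    rintro rfl
    simp at hθ
  have ht0 : t ≠ 0 := (map_ne_zero (algebraMap K F)).2 hθ0
  have m1 : k1 h3' ∈ G1 K F := by
    refine ⟨1, !![1, 2; 1, -1], one_ne_zero, ?_, ?_⟩
    · rw [Matrix.det_fin_two_of]
      have e : (1 : K) * -1 - 2 * 1 = (θ - θ ^ 2) ^ 2 := by
        linear_combination (-(θ ^ 2 - 3 * θ + 3)) * hθ
      refine ⟨θ - θ ^ 2, ?_, e⟩
      intro h0
      rw [h0] at e
      apply h3
      linear_combination -e
    · have h2 : (algebraMap K F) 2 = 2 := map_ofNat _ 2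
      rw [one_smul]
      ext i j
      fin_cases i <;> fin_cases j <;> simp [mp, k1, h2]
  have mR : aff t 0 ht0 ∈ G1 K F := by
    have := aff_mem (F := F) θ 0 ⟨θ ^ 2, pow_ne_zero 2 hθ0, by
      linear_combination (-(θ ^ 2 - θ)) * hθ⟩ ht0
    simpa using this
  have b1 := k1_beta h3' htt
  have bR := kR_beta htt ht0
  rw [mem_beta] at he
  rcases he with rfl | rfl | rfl | rfl
  · refine ⟨1, (G1 K F).one_mem, one_smul _ _, ?_⟩
    ext x
    simp [blk]
  · exact ⟨k1 h3', m1, k1_infty h3', b1⟩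
  · refine ⟨aff t 0 ht0 * k1 h3', (G1 K F).mul_mem mR m1, ?_, ?_⟩
    · rw [mul_smul, k1_infty, aff_smul, mul_one, add_zero]
    · rw [blk_mul b1, bR]
  · refine ⟨aff t 0 ht0 * (aff t 0 ht0 * k1 h3'),
      (G1 K F).mul_mem mR ((G1 K F).mul_mem mR m1), ?_, ?_⟩
    · rw [mul_smul, mul_smul, k1_infty, aff_smul, aff_smul, mul_one, add_zero, add_zero, ← sq]
    · rw [blk_mul, bR]
      rw [blk_mul b1, bR]

/-- scalars -/
def scal (d : F) (hd : d ≠ 0) : GL (Fin 2) F :=
  Matrix.GeneralLinearGroup.mkOfDetNeZero !![d, 0; 0, d] (by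
    rw [Matrix.det_fin_two_of]
    simpa using hd)

theorem scal_mem (K : Type) [Field K] [Algebra K F] (d : F) (hd : d ≠ 0) :
    scal d hd ∈ G1 K F := by
  refine ⟨d, 1, hd, by rw [Matrix.det_one]; exact ⟨1, one_ne_zero, by simp⟩, ?_⟩
  ext i j
  fin_cases i <;> fin_cases j <;> simp [mp, scal]

/-- the orientation read at the point `h ∞` -/
def Oh (X : GL (Fin 2) F → Prop) (h : GL (Fin 2) F) (p w : F) : Prop :=
  ∃ hw : w ≠ 0, X (h * aff w p hw)

theorem Oh_orient {X : GL (Fin 2) F → Prop} (hX1 : ∀ g k, k ∈ G1 K F → X g → X (g * k))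
    (hX2 : ∀ g, X g ↔ ¬ X (g * k0 F)) (h : GL (Fin 2) F) : Orient K (Oh X h) := by
  refine ⟨?_, ?_⟩
  · rintro p w m l hw hl ⟨hw1, hO⟩
    have hl2 : algebraMap K F (l ^ 2) ≠ 0 := (map_ne_zero _).2 (pow_ne_zero 2 hl)
    have hw' : (l ^ 2) • w ≠ 0 := by
      rw [Algebra.smul_def]
      exact mul_ne_zero hl2 hw
    refine ⟨hw', ?_⟩
    have := hX1 _ _ (aff_mem (l ^ 2) m ⟨l, hl, rfl⟩ hl2) hO
    rw [mul_assoc, aff_mul] at this
    convert this using 3
    · rw [Algebra.smul_def, mul_comm]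
    · rw [Algebra.smul_def, add_comm, mul_comm]
  · intro p w hw
    have e : ∀ hw' : -w ≠ 0, h * aff (-w) p hw' = h * aff w p hw * k0 F := by
      intro hw'
      rw [mul_assoc, k0, aff_mul]
      congr 2
      · ring
      · ring
    constructor
    · rintro ⟨_, hO⟩ ⟨hw', hO'⟩
      rw [e hw'] at hO'
      exact (hX2 _).1 hO hO'
    · intro hn
      refine ⟨hw, ?_⟩
      rw [hX2]
      intro h'
      apply hn
      refine ⟨neg_ne_zero.2 hw, ?_⟩
      rw [e]
      exact h'

variable [Fintype F]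

/-- the quadruple system -/
noncomputable def BX (t : F) (X : GL (Fin 2) F → Prop) : Finset (Finset (OnePoint F)) :=
  (Set.toFinite {b : Finset (OnePoint F) | ∃ g, X g ∧ b = blk t g}).toFinset

theorem mem_BX {t : F} {X : GL (Fin 2) F → Prop} {b : Finset (OnePoint F)} :
    b ∈ BX t X ↔ ∃ g, X g ∧ b = blk t g := by
  unfold BX
  rw [Set.Finite.mem_toFinset]
  rfl

/-- the block of `g` when `g` is affine up to `h` -/
theorem blk_erase {t : F} {g h : GL (Fin 2) F} {p w : F} (hinf : g • (∞ : OnePoint F) = h • ∞)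
    (hz : ∀ z : F, g • (z : OnePoint F) = h • ((w * z + p : F) : OnePoint F)) :
    (blk t g).erase (h • ∞) = ({p + w, p + t * w, p + t ^ 2 * w} : Finset F).image
      (fun z : F => h • (z : OnePoint F)) := by
  ext x
  rw [mem_erase, mem_blk, mem_image]
  constructor
  · rintro ⟨hx, e, he, rfl⟩
    rw [mem_beta] at he
    rcases he with rfl | rfl | rfl | rfl
    · exact absurd hinf hx
    · refine ⟨p + w, by simp, ?_⟩
      rw [hz]
      congr 2
      ring
    · refine ⟨p + t * w, by simp, ?_⟩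
      rw [hz]
      congr 2
      ring
    · refine ⟨p + t ^ 2 * w, by simp, ?_⟩
      rw [hz]
      congr 2
      ring
  · rintro ⟨z, hzm, rfl⟩
    refine ⟨?_, ?_⟩
    · intro h1
      have := smul_left_cancel h h1
      exact OnePoint.coe_ne_infty z this
    · simp only [mem_insert, mem_singleton] at hzm
      rcases hzm with rfl | rfl | rfl
      · refine ⟨_, mem_beta.2 (Or.inr (Or.inl rfl)), ?_⟩
        rw [hz]
        congr 2
        ring
      · refine ⟨_, mem_beta.2 (Or.inr (Or.inr (Or.inl rfl))), ?_⟩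
        rw [hz]
        congr 2
        ring
      · refine ⟨_, mem_beta.2 (Or.inr (Or.inr (Or.inr rfl))), ?_⟩
        rw [hz]
        congr 2
        ring

theorem infty_mem_blk {t : F} {g : GL (Fin 2) F} : g • (∞ : OnePoint F) ∈ blk t g :=
  mem_blk.2 ⟨_, mem_beta.2 (Or.inl rfl), rfl⟩

theorem u_dec (u : GL (Fin 2) F) (a b d : F) (ha : a ≠ 0) (hd : d ≠ 0) (h00 : u 0 0 = a * d)
    (h01 : u 0 1 = b * d) (h10 : u 1 0 = 0) (h11 : u 1 1 = d) : u = aff a b ha * scal d hd := by
  apply Units.ext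
  rw [Units.val_mul, aff_val]
  have e : (scal d hd : Matrix (Fin 2) (Fin 2) F) = !![d, 0; 0, d] := rfl
  rw [e, Matrix.mul_fin_two]
  ext i j
  fin_cases i <;> fin_cases j
  · simpa using h00
  · simpa using h01
  · simpa using h10
  · simpa using h11

theorem derived_BX {θ : K} (hθ : θ ^ 2 + θ + 1 = 0) (h3 : (3 : K) ≠ 0)
    {X : GL (Fin 2) F → Prop} (hX1 : ∀ g k, k ∈ G1 K F → X g → X (g * k))
    (h : GL (Fin 2) F) :
    derived (BX (algebraMap K F θ) X) (h • ∞) =
      (TO θ (Oh X h)).image (fun s => s.image (fun z : F => h • (z : OnePoint F))) := by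
  set t := algebraMap K F θ with ht
  ext b
  rw [mem_derived, mem_image]
  constructor
  · rintro ⟨b, hb, hxb, rfl⟩
    rw [mem_BX] at hb
    obtain ⟨g, hg, rfl⟩ := hb
    obtain ⟨e, he, hge⟩ := mem_blk.1 hxb
    obtain ⟨k, hk, hke, hkb⟩ := stab hθ h3 he
    have hg' : X (g * k) := hX1 _ _ hk hg
    rw [← blk_mul (g := g) hkb]
    have hinf : (g * k) • (∞ : OnePoint F) = h • ∞ := by rw [mul_smul, hke, hge]
    set u := h⁻¹ * (g * k) with hu
    have hgu : g * k = h * u := by rw [hu]; group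
    have hui : u • (∞ : OnePoint F) = ∞ := by
      rw [hu, mul_smul, hinf, inv_smul_smul]
    rw [OnePoint.smul_infty_eq_self_iff] at hui
    have hdet : u 0 0 * u 1 1 ≠ 0 := by
      have h1 : (u : Matrix (Fin 2) (Fin 2) F).det ≠ 0 := u.det_ne_zero
      rw [Matrix.det_fin_two, hui, mul_zero, sub_zero] at h1
      exact h1
    have h0 : u 0 0 ≠ 0 := left_ne_zero_of_mul hdet
    have h1 : u 1 1 ≠ 0 := right_ne_zero_of_mul hdet
    obtain ⟨d, hd⟩ : ∃ d : F, u 1 1 = d := ⟨_, rfl⟩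
    obtain ⟨a, haa⟩ : ∃ a : F, u 0 0 = a * d := ⟨u 0 0 / d, by
      rw [div_mul_cancel₀]; rw [← hd]; exact h1⟩
    obtain ⟨c, hcc⟩ : ∃ c : F, u 0 1 = c * d := ⟨u 0 1 / d, by
      rw [div_mul_cancel₀]; rw [← hd]; exact h1⟩
    rw [hd] at h1
    have ha : a ≠ 0 := by
      rintro rfl
      rw [zero_mul] at haa
      exact h0 haa
    have hz : ∀ z : F, (g * k) • (z : OnePoint F) =
        h • ((a * z + c : F) : OnePoint F) := by
      intro z
      rw [hgu, mul_smul, OnePoint.smul_some_eq_ite, hui, zero_mul, zero_add, hd, if_neg h1,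
        haa, hcc]
      congr 2
      field_simp
    have hue : u = aff a c ha * scal d h1 := u_dec u a c d ha h1 haa hcc hui hd
    refine ⟨{c + a, c + θ • a, c + (θ ^ 2) • a}, ?_, ?_⟩
    · rw [mem_TO]
      refine ⟨c, a, ha, ⟨ha, ?_⟩, rfl⟩
      have e1 : h * aff a c ha = (g * k) * (scal d h1)⁻¹ := by
        rw [hgu, hue]
        group
      rw [e1]
      exact hX1 _ _ ((G1 K F).inv_mem (scal_mem K _ h1)) hg'
    · rw [blk_erase hinf hz]
      simp only [Algebra.smul_def, map_pow, ← ht]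
  · rintro ⟨s, hs, rfl⟩
    rw [mem_TO] at hs
    obtain ⟨p, w, hw, ⟨hw', hX⟩, rfl⟩ := hs
    have hinf : (h * aff w p hw') • (∞ : OnePoint F) = h • ∞ := by
      rw [mul_smul, aff_smul_infty]
    refine ⟨blk t (h * aff w p hw'), mem_BX.2 ⟨_, hX, rfl⟩, ?_, ?_⟩
    · rw [← hinf]; exact infty_mem_blk
    · rw [blk_erase (p := p) (w := w) hinf (fun z => by rw [mul_smul, aff_smul])]
      simp only [Algebra.smul_def, map_pow, ← ht]

theorem exists_h (x : OnePoint F) : ∃ h : GL (Fin 2) F, h • (∞ : OnePoint F) = x := by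
  induction x using OnePoint.rec with
  | infty => exact ⟨1, one_smul _ _⟩
  | coe z =>
    refine ⟨Matrix.GeneralLinearGroup.mkOfDetNeZero !![z, -1; 1, 0] (by
      rw [Matrix.det_fin_two_of]; simp), ?_⟩
    rw [OnePoint.smul_infty_eq_ite]
    simp

/-- a block of the affine system -/
def bF (t p w : F) : Finset F := {p + w, p + t * w, p + t ^ 2 * w}

theorem mem_bF {t p w z : F} : z ∈ bF t p w ↔ z = p + w ∨ z = p + t * w ∨ z = p + t ^ 2 * w := by
  simp [bF]

theorem bF_rot {t : F} (ht : t ^ 2 + t + 1 = 0) (p w : F) : bF t p (t * w) = bF t p w := by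
  have h3 : t ^ 2 * t = 1 := by linear_combination (t - 1) * ht
  ext z
  rw [mem_bF, mem_bF]
  have e1 : t * (t * w) = t ^ 2 * w := by ring
  have e2 : t ^ 2 * (t * w) = w := by rw [← mul_assoc, h3, one_mul]
  rw [e1, e2]
  tauto

theorem O_rot {θ : K} (hθ : θ ^ 2 + θ + 1 = 0) {O : F → F → Prop} (hO : Orient K O) {p w : F}
    (hw : w ≠ 0) (h : O p w) : O p (algebraMap K F θ * w) := by
  have hθ0 : θ ≠ 0 := by
    rintro rfl
    simp at hθ
  have := hO.1 p w 0 (θ ^ 2) hw (pow_ne_zero 2 hθ0) h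
  rw [zero_smul, add_zero] at this
  have e : (θ ^ 2) ^ 2 = θ := by linear_combination (θ ^ 2 - θ) * hθ
  rwa [e, Algebra.smul_def] at this

theorem normal {θ : K} (hθ : θ ^ 2 + θ + 1 = 0) {O : F → F → Prop} (hO : Orient K O)
    {p w u : F} (hw : w ≠ 0) (h : O p w) (hu : u ∈ bF (algebraMap K F θ) p w) :
    ∃ w' : F, w' ≠ 0 ∧ O p w' ∧ bF (algebraMap K F θ) p w' = bF (algebraMap K F θ) p w ∧
      u = p + w' := by
  set t := algebraMap K F θ with ht
  have htt : t ^ 2 + t + 1 = 0 := by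
    have := congrArg (algebraMap K F) hθ
    simpa using this
  have hθ0 : θ ≠ 0 := by
    rintro rfl
    simp at hθ
  have ht0 : t ≠ 0 := (map_ne_zero (algebraMap K F)).2 hθ0
  rcases mem_bF.1 hu with rfl | rfl | rfl
  · exact ⟨w, hw, h, rfl, rfl⟩
  · exact ⟨t * w, mul_ne_zero ht0 hw, O_rot hθ hO hw h, bF_rot htt p w, rfl⟩
  · refine ⟨t * (t * w), mul_ne_zero ht0 (mul_ne_zero ht0 hw),
      O_rot hθ hO (mul_ne_zero ht0 hw) (O_rot hθ hO hw h), ?_, by ring⟩
    rw [bF_rot htt, bF_rot htt]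

theorem key {t : F} (ht : t ^ 2 + t + 1 = 0) (ht1 : 1 - t ≠ 0) {p w u v : F}
    (hu : u = p + w) (hv : v ∈ bF t p w) (huv : u ≠ v) :
    (p = u - (u - v) / (1 - t) ∧ w = (u - v) / (1 - t)) ∨
      (p = u + t * ((u - v) / (1 - t)) ∧ w = -(t * ((u - v) / (1 - t)))) := by
  rcases mem_bF.1 hv with h | h | h
  · exact absurd (hu.trans h.symm) huv
  · left
    have e : w = (u - v) / (1 - t) := by
      rw [eq_div_iff ht1, hu, h]; ring
    exact ⟨by rw [← e, hu]; ring, e⟩
  · right
    have e : w = -(t * ((u - v) / (1 - t))) := by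
      have e1 : (u - v) / (1 - t) = (1 + t) * w := by
        rw [div_eq_iff ht1, hu, h]; ring
      rw [e1]
      linear_combination w * ht
    exact ⟨by linear_combination (-1 : F) * hu - e, e⟩

theorem one_sub_ne {t : F} (h3 : (3 : F) ≠ 0) (ht : t ^ 2 + t + 1 = 0) : 1 - t ≠ 0 := by
  intro h
  apply h3
  have : t = 1 := by linear_combination -h
  rw [this] at ht
  linear_combination ht

theorem TO_unique {θ : K} (hθ : θ ^ 2 + θ + 1 = 0) (h3 : (3 : F) ≠ 0) {O : F → F → Prop}
    (hO : Orient K O) {s s' : Finset F} (hs : s ∈ TO θ O) (hs' : s' ∈ TO θ O) {u v : F}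
    (huv : u ≠ v) (hu : u ∈ s) (hv : v ∈ s) (hu' : u ∈ s') (hv' : v ∈ s') : s = s' := by
  set t := algebraMap K F θ with ht
  have htt : t ^ 2 + t + 1 = 0 := by
    have := congrArg (algebraMap K F) hθ
    simpa using this
  have ht1 := one_sub_ne h3 htt
  rw [mem_TO] at hs hs'
  simp only [Algebra.smul_def, map_pow, ← ht] at hs hs'
  obtain ⟨p, w, hw, hpw, e⟩ := hs
  obtain ⟨p', w', hw', hpw', e'⟩ := hs'
  have e : s = bF t p w := e
  have e' : s' = bF t p' w' := e'
  rw [e] at hu hv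
  rw [e'] at hu' hv'
  obtain ⟨a, ha, hpa, ea, hua⟩ := normal hθ hO hw hpw hu
  obtain ⟨a', ha', hpa', ea', hua'⟩ := normal hθ hO hw' hpw' hu'
  rw [← ht] at ea ea'
  rw [← ea] at hv
  rw [← ea'] at hv'
  rw [e, e', ← ea, ← ea']
  have hcross : ∀ P : F, ∀ W : F, W ≠ 0 → O P W → ¬ O (P + W + t * W) (-(t * W)) := by
    intro P W hW hPW h2
    have ht0 : t ≠ 0 := by
      intro h0
      rw [h0] at htt
      simp at htt
    have hθ0 : θ ≠ 0 := by
      intro h0
      rw [h0] at hθ
      simp at hθ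
    have h4 := (hO.2 P W hW).1 hPW
    apply h4
    have hne : -(t * W) ≠ 0 := neg_ne_zero.2 (mul_ne_zero ht0 hW)
    have h5 := hO.1 _ _ (-θ) θ hne hθ0 h2
    rw [Algebra.smul_def, Algebra.smul_def, map_neg, map_pow, ← ht] at h5
    have e1 : P + W + t * W + -t * -(t * W) = P := by linear_combination W * htt
    have e2 : t ^ 2 * -(t * W) = -W := by linear_combination (-(W * (t - 1))) * htt
    rwa [e1, e2] at h5
  rcases key htt ht1 hua hv huv with ⟨h1, h2⟩ | ⟨h1, h2⟩ <;>
    rcases key htt ht1 hua' hv' huv with ⟨h1', h2'⟩ | ⟨h1', h2'⟩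
  · rw [h1, h2, h1', h2']
  · exfalso
    apply hcross p a ha hpa
    have e3 : p + a + t * a = p' := by rw [h1', ← h2, hua]
    have e4 : -(t * a) = a' := by rw [h2', ← h2]
    rw [e3, e4]
    exact hpa'
  · exfalso
    apply hcross p' a' ha' hpa'
    have e3 : p' + a' + t * a' = p := by rw [h1, ← h2', hua']
    have e4 : -(t * a') = a := by rw [h2, ← h2']
    rw [e3, e4]
    exact hpa
  · rw [h1, h2, h1', h2']

theorem TO_exists {θ : K} (hθ : θ ^ 2 + θ + 1 = 0) (h3 : (3 : F) ≠ 0) {O : F → F → Prop}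
    (hO : Orient K O) {u v : F} (huv : u ≠ v) : ∃ s ∈ TO θ O, u ∈ s ∧ v ∈ s := by
  set t := algebraMap K F θ with ht
  have htt : t ^ 2 + t + 1 = 0 := by
    have := congrArg (algebraMap K F) hθ
    simpa using this
  have ht1 := one_sub_ne h3 htt
  set W := (u - v) / (1 - t) with hW
  have hWne : W ≠ 0 := div_ne_zero (sub_ne_zero.2 huv) ht1
  have hv : v = u - W + t * W := by
    have : (1 - t) * W = u - v := by rw [hW]; field_simp
    linear_combination this
  by_cases h : O (u - W) W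
  · refine ⟨_, mem_TO.2 ⟨u - W, W, hWne, h, rfl⟩, ?_, ?_⟩
    · simp
    · simp only [Algebra.smul_def, ← ht, mem_insert, mem_singleton]
      right; left
      exact hv
  · have h1 : O (u - W) (-W) := by
      by_contra h2
      exact h ((hO.2 _ _ hWne).2 h2)
    have h2 := hO.1 (u - W) (-W) (-(1 + θ)) 1 (neg_ne_zero.2 hWne) one_ne_zero h1
    rw [one_pow, one_smul] at h2
    refine ⟨_, mem_TO.2 ⟨_, _, neg_ne_zero.2 hWne, h2, rfl⟩, ?_, ?_⟩
    · simp only [Algebra.smul_def, ← ht, mem_insert, mem_singleton, map_neg, map_add, map_one]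
      right; left
      ring
    · simp only [Algebra.smul_def, ← ht, mem_insert, mem_singleton, map_neg, map_add, map_one]
      left
      rw [hv]
      ring

theorem beta_card {t : F} (h3 : (3 : F) ≠ 0) (ht : t ^ 2 + t + 1 = 0) : (beta t).card = 4 := by
  have ht1 := one_sub_ne h3 ht
  have ht0 : t ≠ 0 := by
    intro h0
    rw [h0] at ht
    simp at ht
  have n1 : (1 : F) ≠ t := sub_ne_zero.1 ht1
  have n2 : (1 : F) ≠ t ^ 2 := by
    intro h
    apply h3
    have : t = -2 := by linear_combination ht + h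
    rw [this] at ht
    linear_combination ht
  have n3 : t ≠ t ^ 2 := by
    intro h
    have : t * (1 - t) = 0 := by linear_combination h
    exact (mul_ne_zero ht0 ht1) this
  rw [beta, card_insert_of_notMem, card_insert_of_notMem, card_insert_of_notMem, card_singleton]
  · rw [mem_singleton, OnePoint.coe_eq_coe]
    exact n3
  · rw [mem_insert, mem_singleton, OnePoint.coe_eq_coe, OnePoint.coe_eq_coe]
    tauto
  · rw [mem_insert, mem_insert, mem_singleton]
    rintro (h | h | h)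
    · exact OnePoint.coe_ne_infty _ h.symm
    · exact OnePoint.coe_ne_infty _ h.symm
    · exact OnePoint.coe_ne_infty _ h.symm

theorem h_inj (h : GL (Fin 2) F) : Function.Injective (fun z : F => h • (z : OnePoint F)) := by
  intro a b hab
  have := smul_left_cancel h hab
  exact OnePoint.coe_injective this

theorem mem_img {h : GL (Fin 2) F} {s : Finset F} {z : F} :
    h • (z : OnePoint F) ∈ s.image (fun z : F => h • (z : OnePoint F)) ↔ z ∈ s := by
  rw [mem_image]
  constructor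
  · rintro ⟨a, ha, e⟩
    rwa [← h_inj h e]
  · intro hz
    exact ⟨z, hz, rfl⟩

theorem exists_z (h : GL (Fin 2) F) {y : OnePoint F} (hy : y ≠ h • ∞) :
    ∃ z : F, y = h • (z : OnePoint F) := by
  have h1 : h⁻¹ • y ≠ ∞ := by
    intro h2
    apply hy
    rw [← h2, smul_inv_smul]
  obtain ⟨z, hz⟩ := OnePoint.ne_infty_iff_exists.1 h1
  exact ⟨z, by rw [hz, smul_inv_smul]⟩

theorem proj_main (hK : Fld K) (θ : K) (hθ : θ ^ 2 + θ + 1 = 0) (h3 : (3 : K) ≠ 0) (k : ℕ)
    (hcol : ∀ O : F → F → Prop, Orient K O → Colorable (TO θ O) k) :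
    ∃ B : Finset (Finset (OnePoint F)), IsSQS B ∧ ∀ x, Colorable (derived B x) k := by
  have h3' : (3 : F) ≠ 0 := by
    intro h
    apply h3
    have : algebraMap K F 3 = 0 := by rw [map_ofNat]; exact h
    exact (map_eq_zero (algebraMap K F)).1 this
  set t := algebraMap K F θ with ht
  have htt : t ^ 2 + t + 1 = 0 := by
    have := congrArg (algebraMap K F) hθ
    simpa using this
  obtain ⟨X, hX1, hX2⟩ := exists_X (F := F) hK
  have hor : ∀ h, Orient K (Oh X h) := Oh_orient hX1 hX2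
  refine ⟨BX t X, ⟨?_, ?_⟩, ?_⟩
  · intro b hb
    rw [mem_BX] at hb
    obtain ⟨g, -, rfl⟩ := hb
    rw [blk, card_image_of_injective _ (MulAction.injective g)]
    exact beta_card h3' htt
  · intro T hT
    obtain ⟨x, y, z, hxy, hxz, hyz, rfl⟩ := card_eq_three.1 hT
    obtain ⟨h, rfl⟩ := exists_h x
    obtain ⟨u, rfl⟩ := exists_z h hxy.symm
    obtain ⟨v, rfl⟩ := exists_z h hxz.symm
    have huv : u ≠ v := fun e => hyz (by rw [e])
    have hd := derived_BX hθ h3 hX1 h
    rw [← ht] at hd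
    obtain ⟨s, hs, hus, hvs⟩ := TO_exists hθ h3' (hor h) huv
    have hmem : s.image (fun z : F => h • (z : OnePoint F)) ∈ derived (BX t X) (h • ∞) := by
      rw [hd]
      exact mem_image_of_mem _ hs
    obtain ⟨b, hb, hxb, hbe⟩ := mem_derived.1 hmem
    refine ⟨b, ⟨hb, ?_⟩, ?_⟩
    · intro a ha
      simp only [mem_insert, mem_singleton] at ha
      rcases ha with rfl | rfl | rfl
      · exact hxb
      · exact mem_of_mem_erase (by rw [hbe]; exact mem_img.2 hus)
      · exact mem_of_mem_erase (by rw [hbe]; exact mem_img.2 hvs)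
    · rintro b' ⟨hb', hsub⟩
      have hxb' : h • ∞ ∈ b' := hsub (by simp)
      have hub' : h • (u : OnePoint F) ∈ b' := hsub (by simp)
      have hvb' : h • (v : OnePoint F) ∈ b' := hsub (by simp)
      have hm' : b'.erase (h • ∞) ∈ derived (BX t X) (h • ∞) :=
        mem_derived.2 ⟨b', hb', hxb', rfl⟩
      rw [hd, mem_image] at hm'
      obtain ⟨s', hs', e'⟩ := hm'
      have hus' : u ∈ s' := mem_img.1 (by rw [e']; exact mem_erase.2 ⟨hxy.symm, hub'⟩)
      have hvs' : v ∈ s' := mem_img.1 (by rw [e']; exact mem_erase.2 ⟨hxz.symm, hvb'⟩)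
      have hss := TO_unique hθ h3' (hor h) hs hs' huv hus hvs hus' hvs'
      have : b'.erase (h • ∞) = b.erase (h • ∞) := by rw [← e', hbe, hss]
      rw [← insert_erase hxb', ← insert_erase hxb, this]
  · intro x
    obtain ⟨h, rfl⟩ := exists_h x
    have hd := derived_BX hθ h3 hX1 h
    rw [← ht] at hd
    rw [hd]
    obtain ⟨c, hc⟩ := hcol _ (hor h)
    refine ⟨fun b => c (b.preimage (fun z : F => h • (z : OnePoint F))
      ((h_inj h).injOn)), ?_⟩
    intro b hb b' hb' hne hcc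
    rw [mem_image] at hb hb'
    obtain ⟨s, hs, rfl⟩ := hb
    obtain ⟨s', hs', rfl⟩ := hb'
    have e : ∀ s : Finset F, (s.image (fun z : F => h • (z : OnePoint F))).preimage
        (fun z : F => h • (z : OnePoint F)) ((h_inj h).injOn) = s := by
      intro s
      ext z
      rw [mem_preimage]
      exact mem_img
    beta_reduce at hcc
    rw [e, e] at hcc
    have := hc s hs s' hs' (fun e => hne (by rw [e])) hcc
    rw [disjoint_image (h_inj h)]
    exact this

end line

end Pool.Agent.Helper31.SQS
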